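import Mathlib

set_option autoImplicit false

namespace Pool.Agent.Results.MP_c9b02e_lc.CapacityFormulaFails

open Finset

/-- The possible values `(w, r, s)` of the triple `(W, R, S)`: the sets `r`, `s` are disjoint
of sizes `M₁`, `M₂` and `w` is in neither. -/
abbrev Triple (K M₁ M₂ : ℕ) : Type :=
  {t : Fin K × Finset (Fin K) × Finset (Fin K) //
    t.2.1.card = M₁ ∧ t.2.2.card = M₂ ∧ Disjoint t.2.1 t.2.2 ∧ t.1 ∉ t.2.1 ∧ t.1 ∉ t.2.2}

/-- The probability of each value of `(W, R, S)`: the law is uniform. -/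
noncomputable def prior (K M₁ M₂ : ℕ) : ℝ := 1 / (Fintype.card (Triple K M₁ M₂) : ℝ)

/-- A protocol for `K` messages in `Fin n → F`. -/
structure Protocol (K M₁ M₂ n : ℕ) (F : Type) [Field F] [Fintype F] where
  /-- the finite set of queries -/
  Q : Type
  [fQ : Fintype Q]
  /-- the finite set of answers -/
  A : Type
  [fA : Fintype A]
  [dA : DecidableEq A]
  /-- `query t θ` is the probability of the query `θ` given `(W, R, S) = t` -/
  query : Triple K M₁ M₂ → Q → ℝ
  query_nonneg : ∀ t θ, 0 ≤ query t θ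
  query_sum : ∀ t, ∑ θ, query t θ = 1
  /-- the answer is a function of the query and the messages -/
  answer : Q → (Fin K → Fin n → F) → A
  /-- privacy: `(W, R)` is independent of the query -/
  privacy : ∀ (w : Fin K) (r : Finset (Fin K)), r.card = M₁ → w ∉ r → ∀ θ : Q,
    (∑ t ∈ univ.filter (fun t : Triple K M₁ M₂ => t.1.1 = w ∧ t.1.2.1 = r),
      prior K M₁ M₂ * query t θ) =
    (∑ t ∈ univ.filter (fun t : Triple K M₁ M₂ => t.1.1 = w ∧ t.1.2.1 = r), prior K M₁ M₂) *
      ∑ t, prior K M₁ M₂ * query t θ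
  /-- recoverability: the wanted message is a function of the answer, the query and the side
  information -/
  recover : ∀ (t : Triple K M₁ M₂) (θ : Q), 0 < query t θ →
    ∀ x y : Fin K → Fin n → F, answer θ x = answer θ y →
      (∀ i ∈ t.1.2.1, x i = y i) → (∀ i ∈ t.1.2.2, x i = y i) → x t.1.1 = y t.1.1

attribute [instance] Protocol.fQ Protocol.fA Protocol.dA

/-- The law of the answer. -/
noncomputable def Protocol.law {K M₁ M₂ n : ℕ} {F : Type} [Field F] [Fintype F]
    [DecidableEq F] (P : Protocol K M₁ M₂ n F) (a : P.A) : ℝ :=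
  ∑ t, ∑ θ, prior K M₁ M₂ * P.query t θ *
    (((univ.filter fun x : Fin K → Fin n → F => P.answer θ x = a).card : ℝ) /
      (Fintype.card (Fin K → Fin n → F) : ℝ))

/-- The Shannon entropy (natural logarithm) of the answer. -/
noncomputable def Protocol.entropy {K M₁ M₂ n : ℕ} {F : Type} [Field F] [Fintype F]
    [DecidableEq F] (P : Protocol K M₁ M₂ n F) : ℝ := ∑ a, Real.negMulLog (P.law a)

/-- The rate `H(X_W) / H(A)`. -/
noncomputable def Protocol.rate {K M₁ M₂ n : ℕ} {F : Type} [Field F] [Fintype F]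
    [DecidableEq F] (P : Protocol K M₁ M₂ n F) : ℝ :=
  n * Real.log (Fintype.card F) / P.entropy

/-- The capacity: the supremum of the rates over all protocols, message lengths `n ≥ 1` and
finite fields. -/
noncomputable def capacity (K M₁ M₂ : ℕ) : EReal :=
  sSup {ρ : EReal | ∃ (F : Type) (_ : Field F) (_ : Fintype F) (_ : DecidableEq F) (n : ℕ)
    (P : Protocol K M₁ M₂ n F), 1 ≤ n ∧ ρ = (P.rate : ℝ)}

/-- `min {K - M₁ - M₂, ⌈K / (M₂ + 1)⌉}`. -/
noncomputable def Kstar (K M₁ M₂ : ℕ) : ℕ := min (K - M₁ - M₂) ⌈(K : ℚ) / (M₂ + 1)⌉₊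

set_option maxRecDepth 20000

/-! ### The example with `K = 9`, `M₁ = M₂ = 3` -/

abbrev T9 : Type := Triple 9 3 3

/-- The three classes. -/
def cl (j : Fin 9) : Fin 3 := ⟨j.1 % 3, Nat.mod_lt _ (by norm_num)⟩

/-- The base triple `(w, r, s)` can be decoded. -/
def Good (t : T9) : Prop :=
  ∃ i : Fin 3, i ≠ cl t.1.1 ∧ ∀ j, cl j ≠ i → j = t.1.1 ∨ j ∈ t.1.2.1 ∨ j ∈ t.1.2.2

instance : DecidablePred Good := fun _ => by unfold Good; infer_instance

/-- The action of permutations on triples. -/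
def act (g : Equiv.Perm (Fin 9)) (t : T9) : T9 :=
  ⟨(g t.1.1, t.1.2.1.map g.toEmbedding, t.1.2.2.map g.toEmbedding), by
    obtain ⟨⟨w, r, s⟩, h1, h2, h3, h4, h5⟩ := t
    refine ⟨?_, ?_, ?_, ?_, ?_⟩
    · simpa using h1
    · simpa using h2
    · simpa [Finset.disjoint_map] using h3
    · simpa using h4
    · simpa using h5⟩

theorem act_mul (g k : Equiv.Perm (Fin 9)) (t : T9) : act (g * k) t = act g (act k t) := by
  apply Subtype.ext
  obtain ⟨⟨w, r, s⟩, h⟩ := t
  simp only [act, Prod.mk.injEq]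
  refine ⟨rfl, ?_, ?_⟩
  · rw [Finset.map_map]
    rfl
  · rw [Finset.map_map]
    rfl

theorem act_one (t : T9) : act 1 t = t := by
  apply Subtype.ext
  obtain ⟨⟨w, r, s⟩, h⟩ := t
  simp only [act, Prod.mk.injEq]
  refine ⟨rfl, ?_, ?_⟩
  · exact Finset.map_refl
  · exact Finset.map_refl

theorem act_inv_act (g : Equiv.Perm (Fin 9)) (t : T9) : act g⁻¹ (act g t) = t := by
  rw [← act_mul, inv_mul_cancel, act_one]

theorem act_act_inv (g : Equiv.Perm (Fin 9)) (t : T9) : act g (act g⁻¹ t) = t := by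
  rw [← act_mul, mul_inv_cancel, act_one]

/-- Labels of the points with respect to a triple. -/
def lab (t : T9) (j : Fin 9) : Fin 4 :=
  if j = t.1.1 then 0 else if j ∈ t.1.2.1 then 1 else if j ∈ t.1.2.2 then 2 else 3

theorem card_lab (t : T9) (c : Fin 4) :
    (univ.filter fun j => lab t j = c).card = ![1, 3, 3, 2] c := by
  obtain ⟨⟨w, r, s⟩, h1, h2, h3, h4, h5⟩ := t
  simp only at h1 h2 h3 h4 h5
  have e0 : (univ.filter fun j => lab ⟨(w, r, s), h1, h2, h3, h4, h5⟩ j = 0) = {w} := by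
    ext j
    simp only [lab, Finset.mem_filter, Finset.mem_univ, true_and, Finset.mem_singleton]
    split_ifs with a b c <;> simp_all
  have e1 : (univ.filter fun j => lab ⟨(w, r, s), h1, h2, h3, h4, h5⟩ j = 1) = r := by
    ext j
    simp only [lab, Finset.mem_filter, Finset.mem_univ, true_and]
    split_ifs with a b c
    · simp only [a]
      simp [h4]
    · simp [b]
    · simp [b]
    · simp [b]
  have e2 : (univ.filter fun j => lab ⟨(w, r, s), h1, h2, h3, h4, h5⟩ j = 2) = s := by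
    ext j
    simp only [lab, Finset.mem_filter, Finset.mem_univ, true_and]
    split_ifs with a b c
    · simp only [a]
      simp [h5]
    · have : j ∉ s := Finset.disjoint_left.1 h3 b
      simp [this]
    · simp [c]
    · simp [c]
  have hsum : ∑ c : Fin 4, (univ.filter fun j =>
      lab ⟨(w, r, s), h1, h2, h3, h4, h5⟩ j = c).card = 9 := by
    have := Finset.card_eq_sum_card_fiberwise (s := (univ : Finset (Fin 9)))
      (t := (univ : Finset (Fin 4))) (f := lab ⟨(w, r, s), h1, h2, h3, h4, h5⟩)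
      (fun _ _ => Finset.mem_coe.2 (Finset.mem_univ _))
    rw [← this]
    simp
  rw [Fin.sum_univ_four, e0, e1, e2, Finset.card_singleton] at hsum
  fin_cases c
  · show (univ.filter fun j => lab ⟨(w, r, s), h1, h2, h3, h4, h5⟩ j = 0).card = 1
    rw [e0, Finset.card_singleton]
  · show (univ.filter fun j => lab ⟨(w, r, s), h1, h2, h3, h4, h5⟩ j = 1).card = 3
    rw [e1, h1]
  · show (univ.filter fun j => lab ⟨(w, r, s), h1, h2, h3, h4, h5⟩ j = 2).card = 3
    rw [e2, h2]
  · show (univ.filter fun j => lab ⟨(w, r, s), h1, h2, h3, h4, h5⟩ j = 3).card = 2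
    omega

theorem transitive (t t' : T9) : ∃ g, act g t = t' := by
  have hc : ∀ c : Fin 4, Fintype.card {j // lab t j = c} = Fintype.card {j // lab t' j = c} := by
    intro c
    rw [Fintype.card_subtype, Fintype.card_subtype, card_lab, card_lab]
  let g : Equiv.Perm (Fin 9) := Equiv.ofFiberEquiv fun c => Fintype.equivOfCardEq (hc c)
  have hg : ∀ j, lab t' (g j) = lab t j := fun j => Equiv.ofFiberEquiv_map _ j
  refine ⟨g, ?_⟩
  obtain ⟨⟨w, r, s⟩, h1, h2, h3, h4, h5⟩ := t
  obtain ⟨⟨w', r', s'⟩, h1', h2', h3', h4', h5'⟩ := t'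
  simp only at h1 h2 h3 h4 h5 h1' h2' h3' h4' h5'
  have hw : g w = w' := by
    have := hg w
    simp only [lab, if_true] at this
    by_contra hne
    rw [if_neg hne] at this
    split_ifs at this <;> simp_all
  have hr : r.map g.toEmbedding ⊆ r' := by
    intro j hj
    obtain ⟨i, hi, rfl⟩ := Finset.mem_map.1 hj
    have := hg i
    have hiw : i ≠ w := fun h => h4 (h ▸ hi)
    simp only [lab, if_neg hiw, if_pos hi] at this
    show g i ∈ r'
    by_contra hne
    rw [if_neg hne] at this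
    split_ifs at this <;> simp_all
  have hs : s.map g.toEmbedding ⊆ s' := by
    intro j hj
    obtain ⟨i, hi, rfl⟩ := Finset.mem_map.1 hj
    have := hg i
    have hiw : i ≠ w := fun h => h5 (h ▸ hi)
    have hir : i ∉ r := fun h => Finset.disjoint_left.1 h3 h hi
    simp only [lab, if_neg hiw, if_neg hir, if_pos hi] at this
    show g i ∈ s'
    by_contra hne
    rw [if_neg hne] at this
    split_ifs at this <;> simp_all
  apply Subtype.ext
  simp only [act, Prod.mk.injEq]
  refine ⟨hw, ?_, ?_⟩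
  · exact Finset.eq_of_subset_of_card_le hr (by rw [Finset.card_map, h1, h1'])
  · exact Finset.eq_of_subset_of_card_le hs (by rw [Finset.card_map, h2, h2'])

/-- The fiber of a pair `(w, r)`. -/
def fib (w : Fin 9) (r : Finset (Fin 9)) : Finset T9 :=
  univ.filter fun t : T9 => t.1.1 = w ∧ t.1.2.1 = r

/-- The good triples in a fiber. -/
def gfib (w : Fin 9) (r : Finset (Fin 9)) : Finset T9 := (fib w r).filter Good

theorem card_cl (i : Fin 3) : (univ.filter fun j => cl j = i).card = 3 := by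
  revert i
  decide

theorem card_cl_ne (i : Fin 3) : (univ.filter fun j => cl j ≠ i).card = 6 := by
  revert i
  decide

theorem exists_class (w : Fin 9) (r : Finset (Fin 9)) (hr : r.card = 3) :
    ∃ i : Fin 3, i ≠ cl w ∧ (r.filter fun j => cl j = i).card ≤ 1 := by
  by_contra hcon
  push Not at hcon
  have hsum : ∑ i : Fin 3, (r.filter fun j => cl j = i).card = 3 :=
    (Finset.card_eq_sum_card_fiberwise (s := r) (t := (univ : Finset (Fin 3))) (f := cl)
      (fun _ _ => Finset.mem_coe.2 (Finset.mem_univ _))).symm.trans hr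
  rw [← Finset.add_sum_erase _ _ (Finset.mem_univ (cl w))] at hsum
  have h2 : ∑ i ∈ univ.erase (cl w), 2 ≤
      ∑ i ∈ univ.erase (cl w), (r.filter fun j => cl j = i).card :=
    Finset.sum_le_sum fun i hi => hcon i (Finset.ne_of_mem_erase hi)
  rw [Finset.sum_const, Finset.card_erase_of_mem (Finset.mem_univ _)] at h2
  simp at h2
  omega

theorem gfib_nonempty (w : Fin 9) (r : Finset (Fin 9)) (hr : r.card = 3) (hw : w ∉ r) :
    (gfib w r).Nonempty := by
  obtain ⟨i, hi, hc⟩ := exists_class w r hr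
  -- the unknown part of the support
  set U : Finset (Fin 9) := (univ.filter fun j => cl j ≠ i) \ insert w r with hU
  set V : Finset (Fin 9) := univ \ insert w r with hV
  have hUV : U ⊆ V := Finset.sdiff_subset_sdiff (Finset.subset_univ _) (Finset.Subset.refl _)
  have hVc : V.card = 5 := by
    rw [hV, Finset.card_sdiff_of_subset (Finset.subset_univ _), Finset.card_insert_of_notMem hw,
      hr]
    simp
  have hUc : U.card ≤ 3 := by
    have h6 : (univ.filter fun j => cl j ≠ i).card = 6 := card_cl_ne i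
    have h7 : ((univ.filter fun j => cl j ≠ i) ∩ insert w r).card ≥ 3 := by
      have h8 : insert w (r.filter fun j => cl j ≠ i) ⊆
          (univ.filter fun j => cl j ≠ i) ∩ insert w r := by
        intro j hj
        rw [Finset.mem_insert] at hj
        rw [Finset.mem_inter, Finset.mem_filter, Finset.mem_insert]
        rcases hj with rfl | hj
        · exact ⟨⟨Finset.mem_univ _, hi.symm⟩, Or.inl rfl⟩
        · exact ⟨⟨Finset.mem_univ _, (Finset.mem_filter.1 hj).2⟩,
            Or.inr (Finset.mem_filter.1 hj).1⟩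
      have h9 : (insert w (r.filter fun j => cl j ≠ i)).card =
          (r.filter fun j => cl j ≠ i).card + 1 :=
        Finset.card_insert_of_notMem fun h => hw (Finset.mem_filter.1 h).1
      have h10 : (r.filter fun j => cl j = i).card + (r.filter fun j => ¬ cl j = i).card =
          r.card := Finset.card_filter_add_card_filter_not _
      have h11 := Finset.card_le_card h8
      rw [h9] at h11
      have h12 : (r.filter fun j => cl j ≠ i).card = (r.filter fun j => ¬ cl j = i).card := rfl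
      omega
    have h13 := Finset.card_sdiff_add_card_inter (univ.filter fun j => cl j ≠ i) (insert w r)
    rw [← hU] at h13
    omega
  obtain ⟨s, hUs, hsV, hsc⟩ := Finset.exists_subsuperset_card_eq hUV hUc
    (by rw [hVc]; norm_num)
  have hsw : w ∉ s := fun h => by
    have := hsV h
    rw [hV, Finset.mem_sdiff] at this
    exact this.2 (Finset.mem_insert_self _ _)
  have hrs : Disjoint r s := by
    rw [Finset.disjoint_left]
    intro j hj hjs
    have := hsV hjs
    rw [hV, Finset.mem_sdiff] at this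
    exact this.2 (Finset.mem_insert_of_mem hj)
  refine ⟨⟨(w, r, s), hr, hsc, hrs, hw, hsw⟩, ?_⟩
  rw [gfib, Finset.mem_filter, fib, Finset.mem_filter]
  refine ⟨⟨Finset.mem_univ _, rfl, rfl⟩, i, hi, ?_⟩
  intro j hj
  by_cases hj2 : j ∈ insert w r
  · rcases Finset.mem_insert.1 hj2 with h | h
    · exact Or.inl h
    · exact Or.inr (Or.inl h)
  · right
    right
    apply hUs
    rw [hU, Finset.mem_sdiff, Finset.mem_filter]
    exact ⟨⟨Finset.mem_univ _, hj⟩, hj2⟩

/-- The weight of a triple. -/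
noncomputable def hh (t : T9) : ℝ := if Good t then 1 / ((gfib t.1.1 t.1.2.1).card : ℝ) else 0

theorem hh_nonneg (t : T9) : 0 ≤ hh t := by
  unfold hh
  split_ifs
  · positivity
  · exact le_refl _

theorem sum_hh (w : Fin 9) (r : Finset (Fin 9)) (hr : r.card = 3) (hw : w ∉ r) :
    ∑ t ∈ fib w r, hh t = 1 := by
  have h1 : ∀ t ∈ fib w r, hh t = if Good t then 1 / ((gfib w r).card : ℝ) else 0 := by
    intro t ht
    obtain ⟨-, h2, h3⟩ := Finset.mem_filter.1 ht
    unfold hh
    rw [h2, h3]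
  rw [Finset.sum_congr rfl h1, ← Finset.sum_filter, Finset.sum_const, nsmul_eq_mul]
  show ((gfib w r).card : ℝ) * _ = 1
  have h2 : ((gfib w r).card : ℝ) ≠ 0 := by
    have := (gfib_nonempty w r hr hw).card_pos
    positivity
  field_simp

/-- Total weight of the orbit. -/
noncomputable def ZZ (t : T9) : ℝ := ∑ g : Equiv.Perm (Fin 9), hh (act g⁻¹ t)

theorem ZZ_const (t t' : T9) : ZZ t = ZZ t' := by
  obtain ⟨k, rfl⟩ := transitive t' t
  unfold ZZ
  rw [← Equiv.sum_comp (Equiv.mulLeft k)]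
  refine Finset.sum_congr rfl fun g _ => ?_
  rw [← act_mul]
  congr 2
  simp [mul_assoc]

theorem ZZ_pos (t : T9) : 0 < ZZ t := by
  obtain ⟨t0, ht0⟩ := gfib_nonempty t.1.1 t.1.2.1 t.2.1 t.2.2.2.2.1
  have hg := (Finset.mem_filter.1 ht0).2
  rw [ZZ_const t t0]
  unfold ZZ
  refine Finset.sum_pos' (fun g _ => hh_nonneg _) ⟨1, Finset.mem_univ _, ?_⟩
  rw [inv_one, act_one]
  unfold hh
  rw [if_pos hg]
  have : 0 < (gfib t0.1.1 t0.1.2.1).card := by
    apply Finset.card_pos.2
    refine ⟨t0, ?_⟩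
    rw [gfib, Finset.mem_filter, fib, Finset.mem_filter]
    exact ⟨⟨Finset.mem_univ _, rfl, rfl⟩, hg⟩
  positivity

/-- The base point. -/
def t00 : T9 := ⟨(0, {1, 2, 3}, {4, 5, 6}), by decide⟩

/-- The query distribution. -/
noncomputable def qq (t : T9) (g : Equiv.Perm (Fin 9)) : ℝ := hh (act g⁻¹ t) / ZZ t00

theorem sum_fib_act (w : Fin 9) (r : Finset (Fin 9)) (hr : r.card = 3) (hw : w ∉ r)
    (g : Equiv.Perm (Fin 9)) : ∑ t ∈ fib w r, qq t g = 1 / ZZ t00 := by
  unfold qq
  rw [← Finset.sum_div]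
  congr 1
  have h1 : ∑ t ∈ fib w r, hh (act g⁻¹ t) =
      ∑ t ∈ fib (g⁻¹ w) (r.map (g⁻¹).toEmbedding), hh t := by
    refine Finset.sum_bij' (fun t _ => act g⁻¹ t) (fun t _ => act g t) ?_ ?_ ?_ ?_ ?_
    · intro t ht
      obtain ⟨-, h2, h3⟩ := Finset.mem_filter.1 ht
      rw [fib, Finset.mem_filter]
      refine ⟨Finset.mem_univ _, ?_, ?_⟩
      · rw [← h2]
        rfl
      · rw [← h3]
        rfl
    · intro t ht
      obtain ⟨-, h2, h3⟩ := Finset.mem_filter.1 ht
      rw [fib, Finset.mem_filter]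
      refine ⟨Finset.mem_univ _, ?_, ?_⟩
      · show g t.1.1 = w
        rw [h2]
        simp
      · show t.1.2.1.map g.toEmbedding = r
        rw [h3, Finset.map_map]
        ext j
        simp
    · intro t _
      exact act_act_inv g t
    · intro t _
      exact act_inv_act g t
    · intro t _
      rfl
  rw [h1]
  refine sum_hh _ _ (by rw [Finset.card_map, hr]) fun h => ?_
  obtain ⟨k, hk, hkw⟩ := Finset.mem_map.1 h
  have h2 : k = w := (g⁻¹).injective hkw
  exact hw (h2 ▸ hk)

theorem card_fib (w : Fin 9) (r : Finset (Fin 9)) (hr : r.card = 3) (hw : w ∉ r) :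
    (fib w r).card = 10 := by
  have hVc : (univ \ insert w r).card = 5 := by
    rw [Finset.card_sdiff_of_subset (Finset.subset_univ _), Finset.card_insert_of_notMem hw, hr]
    simp
  have h1 : (Finset.powersetCard 3 (univ \ insert w r)).card = 10 := by
    rw [Finset.card_powersetCard, hVc]
    rfl
  rw [← h1]
  refine Finset.card_bij (fun t _ => t.1.2.2) ?_ ?_ ?_
  · intro t ht
    obtain ⟨-, h2, h3⟩ := Finset.mem_filter.1 ht
    rw [Finset.mem_powersetCard]
    refine ⟨?_, t.2.2.1⟩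
    intro j hj
    rw [Finset.mem_sdiff]
    refine ⟨Finset.mem_univ _, fun h => ?_⟩
    rcases Finset.mem_insert.1 h with h | h
    · rw [h, ← h2] at hj
      exact t.2.2.2.2.2 hj
    · rw [← h3] at h
      exact Finset.disjoint_left.1 t.2.2.2.1 h hj
  · intro t ht t' ht' h
    obtain ⟨-, h2, h3⟩ := Finset.mem_filter.1 ht
    obtain ⟨-, h2', h3'⟩ := Finset.mem_filter.1 ht'
    apply Subtype.ext
    apply Prod.ext
    · rw [h2, h2']
    · apply Prod.ext
      · rw [h3, h3']
      · exact h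
  · intro s hs
    rw [Finset.mem_powersetCard] at hs
    have hsw : w ∉ s := fun h => by
      have := hs.1 h
      rw [Finset.mem_sdiff] at this
      exact this.2 (Finset.mem_insert_self _ _)
    have hrs : Disjoint r s := by
      rw [Finset.disjoint_left]
      intro j hj hjs
      have := hs.1 hjs
      rw [Finset.mem_sdiff] at this
      exact this.2 (Finset.mem_insert_of_mem hj)
    refine ⟨⟨(w, r, s), hr, hs.2, hrs, hw, hsw⟩, ?_, rfl⟩
    rw [fib, Finset.mem_filter]
    exact ⟨Finset.mem_univ _, rfl, rfl⟩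

theorem fib_empty (w : Fin 9) (r : Finset (Fin 9)) (h : ¬ (r.card = 3 ∧ w ∉ r)) :
    fib w r = ∅ := by
  rw [Finset.eq_empty_iff_forall_notMem]
  intro t ht
  obtain ⟨-, h2, h3⟩ := Finset.mem_filter.1 ht
  apply h
  rw [← h2, ← h3]
  exact ⟨t.2.1, t.2.2.2.2.1⟩

/-- Sum over all triples, fibrewise. -/
theorem sum_fibers (G : T9 → ℝ) (c : ℝ)
    (hG : ∀ w r, r.card = 3 → w ∉ r → ∑ t ∈ fib w r, G t = c) :
    ∑ t, G t = ((univ.filter fun p : Fin 9 × Finset (Fin 9) =>
      p.2.card = 3 ∧ p.1 ∉ p.2).card : ℝ) * c := by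
  have h1 : ∑ t, G t = ∑ p : Fin 9 × Finset (Fin 9), ∑ t ∈ fib p.1 p.2, G t := by
    rw [← Finset.sum_fiberwise_of_maps_to (s := (univ : Finset T9))
      (t := (univ : Finset (Fin 9 × Finset (Fin 9)))) (g := fun t => (t.1.1, t.1.2.1))
      (fun _ _ => Finset.mem_univ _)]
    refine Finset.sum_congr rfl fun p _ => ?_
    refine Finset.sum_congr ?_ fun _ _ => rfl
    ext t
    simp only [fib, Finset.mem_filter, Finset.mem_univ, true_and, Prod.ext_iff]
  rw [h1, Finset.card_filter, Nat.cast_sum, Finset.sum_mul]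
  refine Finset.sum_congr rfl fun p _ => ?_
  by_cases hp : p.2.card = 3 ∧ p.1 ∉ p.2
  · rw [hG p.1 p.2 hp.1 hp.2, if_pos hp]
    simp
  · rw [fib_empty _ _ hp, if_neg hp]
    simp

theorem prior_eq : prior 9 3 3 * (((univ.filter fun p : Fin 9 × Finset (Fin 9) =>
      p.2.card = 3 ∧ p.1 ∉ p.2).card : ℝ) * 10) = 1 := by
  have h := sum_fibers (fun _ => 1) 10 (fun w r hr hw => by
    rw [Finset.sum_const, card_fib w r hr hw]
    norm_num)
  rw [← h]
  unfold prior
  have h2 : (Fintype.card T9 : ℝ) ≠ 0 := by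
    have : Nonempty T9 := ⟨t00⟩
    have := Fintype.card_pos (α := T9)
    positivity
  rw [Finset.sum_const, Finset.card_univ, nsmul_eq_mul, mul_one]
  field_simp

/-- The sum of the messages outside class `i`, permuted by `g`. -/
def LL (i : Fin 3) (g : Equiv.Perm (Fin 9)) (x : Fin 9 → Fin 1 → ZMod 2) : ZMod 2 :=
  ∑ j ∈ univ.filter (fun j => cl j ≠ i), x (g j) 0

theorem LL_sum (g : Equiv.Perm (Fin 9)) (x : Fin 9 → Fin 1 → ZMod 2) :
    LL 0 g x + LL 1 g x + LL 2 g x = 0 := by
  have h1 : LL 0 g x + LL 1 g x + LL 2 g x = ∑ i : Fin 3, LL i g x := by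
    rw [Fin.sum_univ_three]
  rw [h1]
  unfold LL
  simp only [Finset.sum_filter]
  rw [Finset.sum_comm]
  refine Finset.sum_eq_zero fun j _ => ?_
  rw [← Finset.sum_filter, Finset.sum_const]
  have h2 : (univ.filter fun i => cl j ≠ i).card = 2 := by
    revert j
    decide
  rw [h2]
  have h3 : (2 : ZMod 2) = 0 := by decide
  rw [nsmul_eq_mul]
  simp [h3]

/-- The answer. -/
def ans (g : Equiv.Perm (Fin 9)) (x : Fin 9 → Fin 1 → ZMod 2) : ZMod 2 × ZMod 2 :=
  (LL 0 g x, LL 1 g x)

theorem LL_eq_of_ans {g : Equiv.Perm (Fin 9)} {x y : Fin 9 → Fin 1 → ZMod 2}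
    (h : ans g x = ans g y) (i : Fin 3) : LL i g x = LL i g y := by
  have h0 : LL 0 g x = LL 0 g y := congrArg Prod.fst h
  have h1 : LL 1 g x = LL 1 g y := congrArg Prod.snd h
  fin_cases i
  · exact h0
  · exact h1
  · have e1 := LL_sum g x
    have e2 := LL_sum g y
    show LL 2 g x = LL 2 g y
    have e3 : LL 2 g x = -(LL 0 g x + LL 1 g x) := by linear_combination e1
    have e4 : LL 2 g y = -(LL 0 g y + LL 1 g y) := by linear_combination e2
    rw [e3, e4, h0, h1]

theorem recover9 (t : T9) (g : Equiv.Perm (Fin 9)) (hq : 0 < qq t g)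
    (x y : Fin 9 → Fin 1 → ZMod 2) (ha : ans g x = ans g y)
    (hr : ∀ i ∈ t.1.2.1, x i = y i) (hs : ∀ i ∈ t.1.2.2, x i = y i) :
    x t.1.1 = y t.1.1 := by
  have hgood : Good (act g⁻¹ t) := by
    by_contra h
    unfold qq hh at hq
    rw [if_neg h] at hq
    simp at hq
  obtain ⟨i, hi, hsupp⟩ := hgood
  have hL := LL_eq_of_ans ha i
  unfold LL at hL
  have hmem : g⁻¹ t.1.1 ∈ univ.filter (fun j => cl j ≠ i) := by
    rw [Finset.mem_filter]
    exact ⟨Finset.mem_univ _, hi.symm⟩
  rw [← Finset.add_sum_erase _ _ hmem, ← Finset.add_sum_erase _ _ hmem] at hL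
  have hrest : ∑ j ∈ (univ.filter (fun j => cl j ≠ i)).erase (g⁻¹ t.1.1), x (g j) 0 =
      ∑ j ∈ (univ.filter (fun j => cl j ≠ i)).erase (g⁻¹ t.1.1), y (g j) 0 := by
    refine Finset.sum_congr rfl fun j hj => ?_
    rw [Finset.mem_erase, Finset.mem_filter] at hj
    rcases hsupp j hj.2.2 with h | h | h
    · exact absurd h hj.1
    · have : g j ∈ t.1.2.1 := by
        obtain ⟨k, hk, hkj⟩ := Finset.mem_map.1 h
        have : g j = k := by
          rw [← hkj]
          simp
        rw [this]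
        exact hk
      rw [hr _ this]
    · have : g j ∈ t.1.2.2 := by
        obtain ⟨k, hk, hkj⟩ := Finset.mem_map.1 h
        have : g j = k := by
          rw [← hkj]
          simp
        rw [this]
        exact hk
      rw [hs _ this]
  rw [hrest] at hL
  have h2 := add_right_cancel hL
  have h3 : g (g⁻¹ t.1.1) = t.1.1 := by simp
  rw [h3] at h2
  funext k
  have : k = 0 := Subsingleton.elim _ _
  rw [this]
  exact h2

instance : Fact (Nat.Prime 2) := ⟨Nat.prime_two⟩

/-- The protocol. -/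
noncomputable def P9 : Protocol 9 3 3 1 (ZMod 2) where
  Q := Equiv.Perm (Fin 9)
  A := ZMod 2 × ZMod 2
  query := qq
  query_nonneg t θ := div_nonneg (hh_nonneg _) (ZZ_pos _).le
  query_sum t := by
    unfold qq
    rw [← Finset.sum_div]
    show ZZ t / ZZ t00 = 1
    rw [ZZ_const t t00]
    exact div_self (ZZ_pos _).ne'
  answer := ans
  privacy := by
    intro w r hr hw θ
    have h1 : ∑ t ∈ univ.filter (fun t : T9 => t.1.1 = w ∧ t.1.2.1 = r),
        prior 9 3 3 * qq t θ = prior 9 3 3 * (1 / ZZ t00) := by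
      rw [← Finset.mul_sum]
      congr 1
      exact sum_fib_act w r hr hw θ
    have h2 : ∑ t ∈ univ.filter (fun t : T9 => t.1.1 = w ∧ t.1.2.1 = r), prior 9 3 3 =
        10 * prior 9 3 3 := by
      rw [Finset.sum_const, show (univ.filter (fun t : T9 => t.1.1 = w ∧ t.1.2.1 = r)).card = 10
        from card_fib w r hr hw]
      norm_num
    have h3 : ∑ t, prior 9 3 3 * qq t θ = prior 9 3 3 * (((univ.filter fun p :
        Fin 9 × Finset (Fin 9) => p.2.card = 3 ∧ p.1 ∉ p.2).card : ℝ) * (1 / ZZ t00)) := by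
      rw [← Finset.mul_sum]
      congr 1
      exact sum_fibers _ _ fun w r hr hw => sum_fib_act w r hr hw θ
    rw [h1, h2, h3]
    have h4 := prior_eq
    have h5 : 10 * prior 9 3 3 * (prior 9 3 3 * (((univ.filter fun p :
        Fin 9 × Finset (Fin 9) => p.2.card = 3 ∧ p.1 ∉ p.2).card : ℝ) * (1 / ZZ t00))) =
        (prior 9 3 3 * (((univ.filter fun p : Fin 9 × Finset (Fin 9) =>
        p.2.card = 3 ∧ p.1 ∉ p.2).card : ℝ) * 10)) * (prior 9 3 3 * (1 / ZZ t00)) := by ring
    rw [h5, h4, one_mul]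
  recover := recover9

theorem LL_add (i : Fin 3) (g : Equiv.Perm (Fin 9)) (x y : Fin 9 → Fin 1 → ZMod 2) :
    LL i g (x + y) = LL i g x + LL i g y := by
  unfold LL
  rw [← Finset.sum_add_distrib]
  rfl

theorem ans_surj (g : Equiv.Perm (Fin 9)) (a : ZMod 2 × ZMod 2) : ∃ x, ans g x = a := by
  -- unit messages at `g 0` (class 0) and `g 1` (class 1)
  refine ⟨fun j _ => if g⁻¹ j = 0 then a.2 else if g⁻¹ j = 1 then a.1 else 0, ?_⟩
  have h : ∀ i : Fin 3, LL i g (fun j _ => if g⁻¹ j = 0 then a.2 else if g⁻¹ j = 1 then a.1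
      else 0) = ∑ j ∈ univ.filter (fun j => cl j ≠ i),
        (if j = 0 then a.2 else if j = 1 then a.1 else 0) := by
    intro i
    unfold LL
    refine Finset.sum_congr rfl fun j _ => ?_
    simp
  unfold ans
  rw [h 0, h 1]
  have e0 : (univ.filter fun j : Fin 9 => cl j ≠ 0) = {1, 2, 4, 5, 7, 8} := by decide
  have e1 : (univ.filter fun j : Fin 9 => cl j ≠ 1) = {0, 2, 3, 5, 6, 8} := by decide
  rw [e0, e1]
  apply Prod.ext
  · simp
  · simp

theorem card_ans (g : Equiv.Perm (Fin 9)) (a : ZMod 2 × ZMod 2) :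
    (((univ.filter fun x : Fin 9 → Fin 1 → ZMod 2 => ans g x = a).card : ℝ) /
      (Fintype.card (Fin 9 → Fin 1 → ZMod 2) : ℝ)) = 1 / 4 := by
  have hle : ∀ a b : ZMod 2 × ZMod 2,
      (univ.filter fun x : Fin 9 → Fin 1 → ZMod 2 => ans g x = a).card ≤
      (univ.filter fun x : Fin 9 → Fin 1 → ZMod 2 => ans g x = b).card := by
    intro a b
    obtain ⟨x0, hx0⟩ := ans_surj g (b - a)
    refine Finset.card_le_card_of_injOn (fun x => x + x0) ?_ ?_
    · intro x hx
      have hx1 : ans g x = a := (Finset.mem_filter.1 hx).2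
      refine Finset.mem_coe.2 (Finset.mem_filter.2 ⟨Finset.mem_univ _, ?_⟩)
      unfold ans at hx1 hx0 ⊢
      rw [LL_add, LL_add]
      have e1 := congrArg Prod.fst hx1
      have e2 := congrArg Prod.snd hx1
      have e3 := congrArg Prod.fst hx0
      have e4 := congrArg Prod.snd hx0
      simp only [Prod.fst_sub, Prod.snd_sub] at e1 e2 e3 e4
      apply Prod.ext
      · simp only
        rw [e1, e3]
        ring
      · simp only
        rw [e2, e4]
        ring
    · intro x _ y _ h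
      exact add_right_cancel h
  have heq : ∀ b, (univ.filter fun x : Fin 9 → Fin 1 → ZMod 2 => ans g x = b).card =
      (univ.filter fun x : Fin 9 → Fin 1 → ZMod 2 => ans g x = a).card :=
    fun b => le_antisymm (hle b a) (hle a b)
  have htot : Fintype.card (Fin 9 → Fin 1 → ZMod 2) =
      4 * (univ.filter fun x : Fin 9 → Fin 1 → ZMod 2 => ans g x = a).card := by
    have h1 := Finset.card_eq_sum_card_fiberwise (s := (univ : Finset (Fin 9 → Fin 1 → ZMod 2)))
      (t := (univ : Finset (ZMod 2 × ZMod 2))) (f := ans g)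
      (fun _ _ => Finset.mem_coe.2 (Finset.mem_univ _))
    rw [← Finset.card_univ, h1, Finset.sum_congr rfl fun b _ => heq b, Finset.sum_const]
    simp [ZMod.card]
  rw [htot]
  have hpos : 0 < (univ.filter fun x : Fin 9 → Fin 1 → ZMod 2 => ans g x = a).card := by
    obtain ⟨x, hx⟩ := ans_surj g a
    exact Finset.card_pos.2 ⟨x, Finset.mem_filter.2 ⟨Finset.mem_univ _, hx⟩⟩
  push_cast
  have : ((univ.filter fun x : Fin 9 → Fin 1 → ZMod 2 => ans g x = a).card : ℝ) ≠ 0 := by
    positivity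
  field_simp

theorem law9 (a : ZMod 2 × ZMod 2) : P9.law a = 1 / 4 := by
  unfold Protocol.law
  have h1 : ∀ (t : T9) (θ : Equiv.Perm (Fin 9)), prior 9 3 3 * qq t θ *
      (((univ.filter fun x : Fin 9 → Fin 1 → ZMod 2 => ans θ x = a).card : ℝ) /
      (Fintype.card (Fin 9 → Fin 1 → ZMod 2) : ℝ)) = prior 9 3 3 * (1 / 4) * qq t θ := by
    intro t θ
    rw [card_ans]
    ring
  show (∑ t : T9, ∑ θ : Equiv.Perm (Fin 9), prior 9 3 3 * qq t θ *
      (((univ.filter fun x : Fin 9 → Fin 1 → ZMod 2 => ans θ x = a).card : ℝ) /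
      (Fintype.card (Fin 9 → Fin 1 → ZMod 2) : ℝ))) = 1 / 4
  simp only [h1]
  have h2 : ∀ t : T9, ∑ θ : Equiv.Perm (Fin 9), prior 9 3 3 * (1 / 4) * qq t θ =
      prior 9 3 3 * (1 / 4) := by
    intro t
    rw [← Finset.mul_sum]
    have := P9.query_sum t
    have h3 : ∑ θ : Equiv.Perm (Fin 9), qq t θ = 1 := this
    rw [h3, mul_one]
  simp only [h2]
  rw [Finset.sum_const, Finset.card_univ, nsmul_eq_mul]
  unfold prior
  have h4 : (Fintype.card T9 : ℝ) ≠ 0 := by
    have : Nonempty T9 := ⟨t00⟩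
    have := Fintype.card_pos (α := T9)
    positivity
  field_simp

theorem entropy9 : P9.entropy = 2 * Real.log 2 := by
  unfold Protocol.entropy
  have h1 : ∑ a : P9.A, Real.negMulLog (P9.law a) = ∑ a : ZMod 2 × ZMod 2,
      Real.negMulLog (1 / 4) :=
    Finset.sum_congr rfl fun a _ => congrArg Real.negMulLog (law9 a)
  rw [h1, Finset.sum_const, Finset.card_univ, Fintype.card_prod, ZMod.card]
  have h2 : Real.log (1 / 4) = - (2 * Real.log 2) := by
    rw [one_div, Real.log_inv, show (4 : ℝ) = 2 ^ 2 by norm_num, Real.log_pow]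
    push_cast
    ring
  rw [Real.negMulLog, h2, nsmul_eq_mul]
  push_cast
  ring

theorem rate9 : P9.rate = 1 / 2 := by
  unfold Protocol.rate
  rw [entropy9, ZMod.card]
  have : Real.log 2 ≠ 0 := (Real.log_pos (by norm_num)).ne'
  push_cast
  field_simp

/-- The conjectured capacity formula fails: for `K = 9`, `M₁ = M₂ = 3` the capacity is at least
`1 / 2`, while `1 / K* = 1 / 3`. -/
theorem result : ∃ K M₁ M₂ : ℕ, 2 ≤ M₁ ∧ 2 ≤ M₂ ∧ M₁ + M₂ < K ∧
    (((1 : ℝ) / (Kstar K M₁ M₂ : ℝ) : ℝ) : EReal) < capacity K M₁ M₂ := by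
  refine ⟨9, 3, 3, by norm_num, by norm_num, by norm_num, ?_⟩
  have hK : Kstar 9 3 3 = 3 := by
    unfold Kstar
    have : ⌈((9 : ℕ) : ℚ) / ((3 : ℕ) + 1)⌉₊ = 3 := by
      rw [Nat.ceil_eq_iff (by norm_num)]
      norm_num
    rw [this]
    rfl
  rw [hK]
  have h1 : ((P9.rate : ℝ) : EReal) ≤ capacity 9 3 3 := by
    refine le_sSup ⟨ZMod 2, inferInstance, inferInstance, inferInstance, 1, P9, le_refl _, ?_⟩
    rfl
  refine lt_of_lt_of_le ?_ h1
  rw [rate9]
  exact EReal.coe_lt_coe_iff.2 (by norm_num)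

end Pool.Agent.Results.MP_c9b02e_lc.CapacityFormulaFails
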